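import Pool.Agent.H93.SC.Main

/-!
# A criterion for alternative (A)

The universe of sets is `ZFSet.{u}`. The definitions of `HOD`, `HODReg`, `Extendible` and `AltA`
(alternative (A)) are those of the library module `Results.MP_e37c09_lc.AlternativeA` and the modules it
imports. `Cf μ α` (file `Pool/Agent/H93/HM/Cof.lean`) says that the cofinality of `α` is `μ`.

Let `δ` be an extendible cardinal. Alternative (A) holds if and only if there are ordinals `a < b`, both
at least `δ` and regular in HOD, such that `b` has an uncountable cofinality which is not that of `a`, and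
no ordinal between `a` and `b` which is regular in HOD has cofinality `ω`.
-/

set_option autoImplicit false

universe u

namespace Pool.Agent.Results.MP_e37c09_lc.CofinalityCriterion

open ZFSet Gss969 Pool.Agent.H310.HD Pool.Agent.H93.HM Pool.Agent.H93.SC
  Pool.Agent.Results.MP_e37c09_lc.AlternativeA

theorem result (δ : Ordinal.{u}) (hδ : Extendible δ) :
    AltA δ ↔ ∃ a b μ : Ordinal.{u}, δ ≤ a ∧ a < b ∧ HODReg a ∧ HODReg b ∧
      Cf μ.toZFSet b.toZFSet ∧ Ordinal.omega0 < μ ∧ ¬ Cf μ.toZFSet a.toZFSet ∧
      ∀ c, a < c → c < b → HODReg c → ¬ Cf Ordinal.omega0.toZFSet c.toZFSet :=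
  main_iff hδ

end Pool.Agent.Results.MP_e37c09_lc.CofinalityCriterion
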