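import Pool.Agent.H93.SC.Main

/-!
# Fine measures in HOD if alternative (A) fails

The universe of sets is `ZFSet.{u}`. The definitions of `HOD`, `HODReg`, `Extendible`, `Club`, `RegUnc`,
`IsCard` and `AltA` (alternative (A)) are those of the library module
`Results.MP_e37c09_lc.AlternativeA` and the modules it imports. `Cf μ α` (file
`Pool/Agent/H93/HM/Cof.lean`) says that the cofinality of `α` is `μ`, and `Rg ν` that `ν` is an infinite
regular cardinal. `WNorm`, `PK`, `FineU`, `Block` and `HSucc` are in `Pool/Agent/H93/SC/Def.lean`.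

Let `δ` be an extendible cardinal and assume that (A) fails. For each regular `ν < δ` there is `β < δ`
such that the following holds for all ordinals `l ≥ β` which are regular in HOD and whose cofinality `μ`
is uncountable and larger than `ν`. Either
* `l` is not a successor cardinal in HOD, the ordinals below `l` which are regular in HOD contain a
  closed unbounded subset of `l`, and, if `μ ≥ β`, there is in HOD a uniform weakly normal ultrafilter on
  `l` which contains a set of ordinals of cofinality `ν` that are regular in HOD and which is complete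
  for all sequences in `V` of length less than `μ`; or
* there is `θ < l` of cofinality `μ` which is a limit of regular cardinals of HOD of cofinality `ν`, such
  that all regular cardinals of HOD between `θ` and `l` have cofinality `μ`, and such that, if `μ ≥ β`,
  there is in HOD a fine ultrafilter on `P_θ(l)` which is complete for all sequences in `V` of length
  less than `μ`. If `l` is the successor of `γ` in HOD then `θ ≤ γ`; if moreover `γ` is a cardinal then
  `θ = γ`, and if `γ` is a regular uncountable cardinal then `θ = μ = γ`.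

In particular, if (A) fails, then for every regular `κ ≥ β` the cofinality of `(κ⁺)^HOD` is `ω` or `κ`,
and in the second case `κ` is `(κ⁺)^HOD`-strongly compact in HOD.
-/

set_option autoImplicit false

universe u

namespace Pool.Agent.Results.MP_e37c09_lc.FineMeasures

open ZFSet Gss969 Pool.Agent.H310.HD Pool.Agent.H93.HM Pool.Agent.H93.SC
  Pool.Agent.Results.MP_e37c09_lc.AlternativeA

theorem result (δ : Ordinal.{u}) (hδ : Extendible δ) : AltA δ ∨
    ∀ ν < δ, Rg ν → ∃ β < δ, ∀ l ≥ β, ∀ μ : Ordinal.{u}, HODReg l → Cf μ.toZFSet l.toZFSet →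
      Ordinal.omega0 < μ → ν < μ →
      ((∀ γ, ¬ HSucc γ l) ∧
        (∃ C, C ⊆ l.toZFSet ∧ Club C l.toZFSet ∧ ∀ α : Ordinal.{u}, α.toZFSet ∈ C → HODReg α) ∧
        (β ≤ μ → ∃ U, WNorm μ l U ∧
          ∃ Z ∈ U, ∀ α : Ordinal.{u}, α.toZFSet ∈ Z → HODReg α ∧ Cf ν.toZFSet α.toZFSet)) ∨
      ∃ θ < l, Block ν μ θ l ∧ (β ≤ μ → ∃ W, FineU μ θ l W) ∧
        ∀ γ, HSucc γ l → θ ≤ γ ∧ (IsCard γ.toZFSet → θ = γ) ∧ (RegUnc γ.toZFSet → μ = γ) := by
  by_cases hA : AltA δ
  · exact Or.inl hA
  · exact Or.inr fun ν hν hνr => main_final hδ hA hν hνr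

end Pool.Agent.Results.MP_e37c09_lc.FineMeasures
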