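import Pool.Agent.H93.HM.Ext

/-!
# The Mitchell order in `HOD` when alternative (A) fails

The universe of sets is `ZFSet.{u}`; `Extendible`, `HOD`, `RegUnc`, `StatL` and `AltA` (alternative
(A)) are as in `Results.MP_e37c09_lc.AlternativeA`. The other definitions are `Cf` (cofinality, in
`HM/Cof.lean`), `NormU` (normal measures of `HOD`, in `HM/Msr.lean`), `MLt` and `MRank` (the Mitchell
order of `HOD`, in `HM/Mit.lean`).

Let `δ` be extendible and suppose that (A) fails. Then for every `ξ < δ` and all large enough regular
`ν < δ` there is `b < δ` such that for every regular `κ > b`, in particular for every regular `κ ≥ δ`: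
whenever `X ⊆ κ` is in `HOD` and the set of the `α ∈ X` with `cof(α) = ν` is stationary, this set
belongs to a normal measure of `HOD` on `κ` which has rank at least `ξ` in the Mitchell order of `HOD`.
So the Mitchell order of every regular `κ ≥ δ` in `HOD` is at least `δ`.

The proof. Since (A) fails, for each `μ < δ` there is `c < δ` such that `HOD` has no sequence of `c`
disjoint stationary subsets of `cof(μ) ∩ κ` (`Extendible.noSplit`). So `cof(μ) ∩ κ` is up to a
nonstationary set the union of less than `δ` sets in `HOD` which are atoms (`decompose`), and the closed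
unbounded filter gives normal measures of `HOD` on the atoms (`Atom.normU`). If `A` is an atom of a
larger cofinality `ν`, then for some atom `B ⊆ cof(μ) ∩ κ` stationary many `α ∈ A` have `B ∩ α`
stationary in `α`, and the function taking `α` to the filter generated by the closed unbounded subsets
of `α` on `B ∩ α` puts the measure of `B` in the ultrapower by the measure of `A` (`mlt_uf`).
-/

set_option autoImplicit false

namespace Pool.Agent.Results.MP_e37c09_lc.MitchellOrder

open Pool.Agent.H93.HM Pool.Agent.H310.HD Gss969 ZFSet
open Pool.Agent.Results.MP_e37c09_lc.AlternativeA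

universe u

/-- **Main theorem.** -/
theorem result (δ : Ordinal.{u}) (hδ : Extendible δ) : AltA δ ∨
    ∀ ξ < δ, ∃ σ < δ, ∀ ν, σ < ν → ν < δ → RegUnc (Ordinal.toZFSet ν) →
      ∃ b < δ, ∀ κ > b, RegUnc (Ordinal.toZFSet κ) →
        StatL {α | Cf ν.toZFSet α.toZFSet} κ ∧
        ∀ X, HOD X → X ⊆ κ.toZFSet → StatL {α | α.toZFSet ∈ X ∧ Cf ν.toZFSet α.toZFSet} κ →
          ∃ U, MRank κ ξ U ∧ ZFSet.sep (fun a => a ∈ X ∧ Cf ν.toZFSet a) κ.toZFSet ∈ U := by
  by_cases hA : AltA δ
  · exact Or.inl hA
  · right
    have h1 : NoSplit δ := Extendible.noSplit hδ fun h =>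
      hA (((AlternativeA.result true δ hδ).out 0 5).2 h)
    intro ξ hξ
    exact exists_mrank hδ.regUnc (Extendible.strongLimit hδ) h1 ξ hξ

end Pool.Agent.Results.MP_e37c09_lc.MitchellOrder
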