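import Pool.Agent.H93.SV.Ref

/-!
# Alternative (A) and the cofinalities of successors in HOD of singular cardinals

The universe of sets is `ZFSet.{u}`. The definitions of `HOD`, `HODReg`, `IsCard`, `Club`,
`Extendible` and `AltA` (alternative (A)) are those of the library module
`Results.MP_e37c09_lc.AlternativeA` and the modules it imports. `Cf μ α` (file
`Pool/Agent/H93/HM/Cof.lean`) says that the cofinality of `α` is `μ`, and `HSucc γ l` (file
`Pool/Agent/H93/SC/Def.lean`) that `l` is the least regular cardinal of HOD above `γ`. If `γ` is a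
cardinal this is the successor of `γ` in HOD.

Let `δ` be an extendible cardinal. Then alternative (A) holds if and only if for some cardinal
`l > δ` of uncountable cofinality
* `(κ⁺)^HOD` does not have cofinality `ω` for stationary many singular cardinals `κ < l`, and
* `(κ⁺)^HOD` does not have the cofinality of `κ` for stationary many singular cardinals `κ < l`.

So if (A) fails, that is, if (B) holds, then for each such `l` one of the two values is attained at
all singular cardinals `κ` in a closed unbounded subset of `l`.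
-/

set_option autoImplicit false

universe u

namespace Pool.Agent.Results.MP_e37c09_lc.UniformCofinalities

open ZFSet Gss969 Pool.Agent.H310.HD Pool.Agent.H93.HM Pool.Agent.H93.SC
  Pool.Agent.Results.MP_e37c09_lc.AlternativeA

theorem result (δ : Ordinal.{u}) (hδ : Extendible δ) :
    AltA δ ↔ ∃ l > δ, IsCard (Ordinal.toZFSet l) ∧ ∃ μ : Ordinal.{u},
      Cf μ.toZFSet l.toZFSet ∧ Ordinal.omega0 < μ ∧
      (∀ C, C ⊆ l.toZFSet → Club C l.toZFSet → ∃ κ ν s : Ordinal.{u}, κ.toZFSet ∈ C ∧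
        IsCard κ.toZFSet ∧ Cf ν.toZFSet κ.toZFSet ∧ ν < κ ∧ HSucc κ s ∧
          ¬ Cf Ordinal.omega0.toZFSet s.toZFSet) ∧
      (∀ C, C ⊆ l.toZFSet → Club C l.toZFSet → ∃ κ ν s : Ordinal.{u}, κ.toZFSet ∈ C ∧
        IsCard κ.toZFSet ∧ Cf ν.toZFSet κ.toZFSet ∧ ν < κ ∧ HSucc κ s ∧
          ¬ Cf ν.toZFSet s.toZFSet) := by
  constructor
  · intro hA
    obtain ⟨l, hl, hr, hlim⟩ := hδ.exists_regLim δ
    have hst : ∀ C, C ⊆ l.toZFSet → Club C l.toZFSet → ∃ κ ν s : Ordinal.{u}, κ.toZFSet ∈ C ∧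
        IsCard κ.toZFSet ∧ Cf ν.toZFSet κ.toZFSet ∧ ν < κ ∧ HSucc κ s ∧
          Cf s.toZFSet s.toZFSet := by
      intro C hC1 hC2
      obtain ⟨κ, hκ, ⟨h1, h2, h3⟩, h4⟩ := statL_card hr hlim hl C hC1 hC2
      obtain ⟨s, hs⟩ := Pool.Agent.H93.SV.exists_hs κ
      obtain ⟨l', hl', hr', hsucc⟩ := exists_succ h2.1 (tz_mem.1 h2.2.1)
      obtain ⟨ν, hν, hν'⟩ := exists_Cf (cofN_lim (cofN_om.2 h3))
      refine ⟨κ, ν, s, h4, h2.1, hν', ?_, hs, ?_⟩
      · refine lt_of_le_of_ne hν fun h5 => ?_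
        rw [h5] at hν'
        exact hν'.2 _ h2.2.1 (cofN_om.2 h3)
      · have h5 : s = l' := by
          rcases lt_trichotomy s l' with h6 | h6 | h6
          · exact absurd hs.2.1 (hA κ h1 h2 l' hsucc s hs.1.le h6)
          · exact h6
          · exact absurd (hodReg_of_regUnc hr') (hs.2.2 l' hl' h6)
        rw [h5]
        exact cf_of_regUnc hr'
    refine ⟨l, hl, hr.isCard, l, cf_of_regUnc hr, hr.om_lt, fun C hC1 hC2 => ?_,
      fun C hC1 hC2 => ?_⟩
    · obtain ⟨κ, ν, s, h1, h2, h3, h4, h5, h6⟩ := hst C hC1 hC2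
      refine ⟨κ, ν, s, h1, h2, h3, h4, h5, fun h7 => ?_⟩
      have h8 := Cf.om_le (bot_le.trans_lt h4) h3
      exact absurd (Cf.unique h7 h6) ((h8.trans_lt h4).trans h5.1).ne
    · obtain ⟨κ, ν, s, h1, h2, h3, h4, h5, h6⟩ := hst C hC1 hC2
      exact ⟨κ, ν, s, h1, h2, h3, h4, h5, fun h7 => absurd (Cf.unique h7 h6)
        (h4.trans h5.1).ne⟩
  · rintro ⟨l, hl, hc, μ, hμ, hω, h1, h2⟩
    by_contra hA
    have hb : ¬ HODHypothesis.{u} true := fun h =>
      hA (((Pool.Agent.Results.MP_e37c09_lc.AlternativeA.result true δ hδ).out 0 9).2 h)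
    rcases Pool.Agent.H93.SV.unif_all hδ hb hl hc hμ hω with ⟨C, hC1, hC2, h3⟩ | ⟨C, hC1, hC2, h3⟩
    · obtain ⟨κ, ν, s, h4, h5, h6, h7, h8, h9⟩ := h1 C hC1 hC2
      exact h9 (h3 κ ν s h4 h5 h6 h7 h8)
    · obtain ⟨κ, ν, s, h4, h5, h6, h7, h8, h9⟩ := h2 C hC1 hC2
      exact h9 (h3 κ ν s h4 h5 h6 h7 h8)

end Pool.Agent.Results.MP_e37c09_lc.UniformCofinalities
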